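import Mathlib
import Pool.Agent.Lib.MP_afd317_lc.Shp2

/-!
# No uniform extraction of free sets from thin sets
-/

set_option autoImplicit false

namespace Pool.Agent.Results.MP_afd317_lc.NoUniformExtraction

open Pool.Agent.Lib.MP_afd317_lc

/-- For every `N = n + 2 ≥ 2` there is a computable instance `f` of the free set theorem `FS(N)` with the
following property. For every adaptive sequence `G` of instances of thin set theorems (arbitrary
functions, not necessarily computable, of arbitrary exponents, the `j`-th one depending arbitrarily on
the solutions of the previous ones) and every finite list of `Σ_N` functionals there is a sequence `H` of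
solutions from which no functional of the list produces an infinite free set of `f`. -/
theorem result (n : ℕ) :
    ∃ f : List ℕ → ℕ, Computable f ∧
      ∀ (G : (j : ℕ) → (Fin j → Set ℕ) → (m : ℕ) × ((Fin m → ℕ) → ℕ))
        (l : List (List Bool × ℕ → Prop)), (∀ E ∈ l, IsSigma (n + 2) E) →
        ∃ H : ℕ → Set ℕ, Solves G H ∧
          ∀ E ∈ l, ¬ IsFree (n + 2) (fun x => f (List.ofFn x)) (Output E H) := by
  refine ⟨hidT n, computable_hidT n, fun G l hl => ?_⟩
  obtain ⟨ρ, hρ⟩ := force_allT n l hl []
  obtain ⟨H, hH, hag⟩ := exists_solution G ([] ++ ρ)
  exact ⟨H, hH, fun E hE => (hρ H hag E hE).not_isFree⟩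

end Pool.Agent.Results.MP_afd317_lc.NoUniformExtraction
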